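import Pool.Agent.Y298.EX.Stm

/-! Comparison of the orbits of two nearby maps. -/

set_option autoImplicit false

open Set Filter Metric MeasureTheory Topology

namespace Pool.Agent.Y641.EX

open Pool.Agent.TH279.MD Pool.Agent.Y298.SH Pool.Agent.Y298.SH.CD Pool.Agent.Y298.EX
open Pool.Agent.Y298

/-- the family -/
def Qt (d : ℕ) (p q : ℂ → ℂ) (t z : ℂ) : ℂ := z ^ d + (p z + t * (q z - p z))

theorem diff_t (d : ℕ) {p q : ℂ → ℂ} (hp : Differentiable ℂ p) (hq : Differentiable ℂ q) (x : ℂ)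
    (j : ℕ) : Differentiable ℂ (fun t => (Qt d p q t)^[j] x) := by
  induction j with
  | zero => exact differentiable_const _
  | succ j ih =>
    have e : (fun t => (Qt d p q t)^[j + 1] x) = fun t => ((Qt d p q t)^[j] x) ^ d +
        (p ((Qt d p q t)^[j] x) + t * (q ((Qt d p q t)^[j] x) - p ((Qt d p q t)^[j] x))) := by
      funext t
      rw [Function.iterate_succ_apply']
      rfl
    rw [e]
    have h1 : Differentiable ℂ fun t => p ((Qt d p q t)^[j] x) := hp.comp ih
    have h2 : Differentiable ℂ fun t => q ((Qt d p q t)^[j] x) := hq.comp ih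
    exact (ih.fun_pow d).fun_add (h1.fun_add (differentiable_id.fun_mul (h2.fun_sub h1)))

theorem diff_z (d : ℕ) {p q : ℂ → ℂ} (hp : Differentiable ℂ p) (hq : Differentiable ℂ q) (t : ℂ)
    (j : ℕ) : Differentiable ℂ ((Qt d p q t)^[j]) := by
  have h : Differentiable ℂ (Qt d p q t) := by
    unfold Qt
    exact (differentiable_id.fun_pow d).fun_add (hp.fun_add
      ((differentiable_const t).fun_mul (hq.fun_sub hp)))
  exact h.iterate j

theorem Qt_zero (d : ℕ) (p q : ℂ → ℂ) : Qt d p q 0 = fun z => z ^ d + p z := by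
  funext z
  unfold Qt
  ring

theorem Qt_one (d : ℕ) (p q : ℂ → ℂ) : Qt d p q 1 = fun z => z ^ d + q z := by
  funext z
  unfold Qt
  ring

theorem pow_lip (d : ℕ) {u v : ℂ} (hu : ‖u‖ ≤ 3) (hv : ‖v‖ ≤ 3) :
    ‖u ^ d - v ^ d‖ ≤ d * 3 ^ (d - 1) * ‖u - v‖ := by
  have hconv : Convex ℝ (closedBall (0 : ℂ) 3) := convex_closedBall _ _
  exact hconv.norm_image_sub_le_of_norm_hasDerivWithin_le
    (f := fun w : ℂ => w ^ d) (f' := fun w => (d : ℂ) * w ^ (d - 1))
    (C := d * 3 ^ (d - 1)) (x := v) (y := u)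
    (fun w _ => (hasDerivAt_pow d w).hasDerivWithinAt) (by
      intro w hw
      rw [mem_closedBall_zero_iff] at hw
      rw [norm_mul, norm_pow, Complex.norm_natCast]
      gcongr)
    (by rwa [mem_closedBall_zero_iff]) (by rwa [mem_closedBall_zero_iff])

/-- **EX-PTWO.** -/
theorem t : Pool.Agent.Y298.EX.S_PTWO := by
  intro d C₁ lam θ B Ca hd hPC c₀ hc s Gb k m hs hs1 hP hGb hGb1 p q η hp hq hp1 hp2 hq1 hq2 hη
    hηs x y ρ hx hyx hρs horb hE
  set E0 : ℝ := 2 * Gb * ρ + 16 * Ca * Gb * η with hE0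
  have hρ0 : 0 ≤ ρ := (norm_nonneg _).trans hyx
  have hCa := hPC.Ca1
  have hCaGb : 1 ≤ Ca * Gb := one_le_mul_of_one_le_of_one_le hCa hGb1
  have hE0η : 16 * η ≤ E0 := by
    have h1 : 0 ≤ 2 * Gb * ρ := by positivity
    have h3 : η * 1 ≤ η * (Ca * Gb) := mul_le_mul_of_nonneg_left hCaGb hη.le
    have h2 : 16 * η ≤ 16 * Ca * Gb * η := by linarith
    linarith
  have hLL : 1 ≤ LL d := by
    unfold LL
    have : (0 : ℝ) ≤ d * 3 ^ (d - 1) := by positivity
    linarith
  -- the passage for the family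
  have hpass : ∀ t : ℂ, ‖t‖ * η ≤ s / 2 → ∀ u ∈ ball c₀ (2 * s), ∀ j ≤ k,
      ‖(Qt d p q t)^[j] u - zz d c₀ j‖ ≤ Ca * s * Pd d c₀ j ∧
      ‖deriv ((Qt d p q t)^[j]) u‖ ≤ 2 * Pd d c₀ j := by
    intro t ht u hu j hj
    have h1 := hPC.pass c₀ hc (fun z => p z + t * (q z - p z)) s k hs hs1
      ((hp.fun_add ((differentiable_const t).fun_mul (hq.fun_sub hp))).differentiableOn) ?_ ?_ hP
      u hu j hj
    · exact ⟨h1.1, h1.2.2.1⟩
    · intro z hz
      have e : p z + t * (q z - p z) - c₀ = (p z - c₀) + t * (q z - p z) := by ring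
      rw [e]
      refine (norm_add_le _ _).trans ?_
      rw [norm_mul]
      have h2 := hp1 z hz
      have h3 : ‖t‖ * ‖q z - p z‖ ≤ ‖t‖ * η :=
        mul_le_mul_of_nonneg_left (hq1 z hz) (norm_nonneg _)
      linarith
    · intro z hz
      have e : deriv (fun z => p z + t * (q z - p z)) z =
          deriv p z + t * (deriv q z - deriv p z) :=
        ((hp z).hasDerivAt.fun_add (((hq z).hasDerivAt.fun_sub (hp z).hasDerivAt).const_mul
          t)).deriv
      rw [e]
      refine (norm_add_le _ _).trans ?_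
      rw [norm_mul]
      have h2 := hp2 z hz
      have h3 : ‖t‖ * ‖deriv q z - deriv p z‖ ≤ ‖t‖ * η :=
        mul_le_mul_of_nonneg_left (hq2 z hz) (norm_nonneg _)
      linarith
  have hx2 : x ∈ ball c₀ (2 * s) := ball_subset_ball (by linarith) hx
  have hy2 : y ∈ ball c₀ (2 * s) := by
    rw [mem_ball, dist_eq_norm] at hx ⊢
    have : y - c₀ = (y - x) + (x - c₀) := by ring
    rw [this]
    refine (norm_add_le _ _).trans_lt ?_
    linarith
  -- the first part of the orbits
  have hA : ∀ j ≤ k, ‖(fun z => z ^ d + q z)^[j] y - (fun z => z ^ d + p z)^[j] x‖ ≤ E0 := by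
    intro j hj
    have hPd := hc.Pd_pos j
    have hPdG := hGb j hj
    have h1 : ‖(Qt d p q 1)^[j] y - (Qt d p q 1)^[j] x‖ ≤ 2 * Pd d c₀ j * ‖y - x‖ := by
      refine (convex_ball c₀ (2 * s)).norm_image_sub_le_of_norm_deriv_le
        (fun u _ => (diff_z d hp hq 1 j) u) (fun u hu => (hpass 1 ?_ u hu j hj).2) hx2 hy2
      rw [norm_one]
      linarith
    have h2 : ‖(Qt d p q 1)^[j] x - (Qt d p q 0)^[j] x‖ ≤
        3 * (Ca * s * Pd d c₀ j) / (s / (2 * η)) := by
      have hT : (0 : ℝ) < s / (2 * η) := by positivity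
      have hR : 0 < Ca * s * Pd d c₀ j := by positivity
      have h3 := Complex.dist_le_div_mul_dist_of_mapsTo_ball (f := fun t => (Qt d p q t)^[j] x)
        (c := 0) (z := 1) (R₁ := s / (2 * η)) (R₂ := 3 * (Ca * s * Pd d c₀ j))
        (diff_t d hp hq x j).differentiableOn ?_ ?_
      · rw [dist_eq_norm, dist_eq_norm, sub_zero, norm_one, mul_one] at h3
        exact h3
      · intro t ht
        rw [mem_ball_zero_iff, lt_div_iff₀ (by positivity)] at ht
        rw [mem_closedBall, dist_eq_norm]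
        have e1 := (hpass t (by linarith) x hx2 j hj).1
        have e2 := (hpass 0 (by rw [norm_zero]; linarith) x hx2 j hj).1
        have e3 : (Qt d p q t)^[j] x - (Qt d p q 0)^[j] x =
            ((Qt d p q t)^[j] x - zz d c₀ j) - ((Qt d p q 0)^[j] x - zz d c₀ j) := by ring
        show ‖(Qt d p q t)^[j] x - (Qt d p q 0)^[j] x‖ ≤ _
        rw [e3]
        refine (norm_sub_le _ _).trans ?_
        linarith
      · rw [mem_ball_zero_iff, norm_one, lt_div_iff₀ (by positivity)]
        linarith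
    have h3 : 3 * (Ca * s * Pd d c₀ j) / (s / (2 * η)) = 6 * Ca * Pd d c₀ j * η := by
      field_simp
      ring
    rw [← Qt_one d p q, ← Qt_zero d p q]
    have e : (Qt d p q 1)^[j] y - (Qt d p q 0)^[j] x = ((Qt d p q 1)^[j] y - (Qt d p q 1)^[j] x) +
        ((Qt d p q 1)^[j] x - (Qt d p q 0)^[j] x) := by ring
    rw [e]
    refine (norm_add_le _ _).trans ?_
    rw [h3] at h2
    have h4 : 2 * Pd d c₀ j * ‖y - x‖ ≤ 2 * Gb * ρ := by
      have : 2 * Pd d c₀ j ≤ 2 * Gb := by linarith
      exact mul_le_mul this hyx (norm_nonneg _) (by linarith)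
    have h5 : 6 * Ca * Pd d c₀ j * η ≤ 16 * Ca * Gb * η := by
      have h6 : Ca * Pd d c₀ j ≤ Ca * Gb := mul_le_mul_of_nonneg_left hPdG (by linarith)
      have h7 : 0 ≤ Ca * Pd d c₀ j * η := by positivity
      have h8 := mul_le_mul_of_nonneg_right h6 hη.le
      linarith
    linarith
  -- the further steps
  have hB : ∀ i ≤ m, ‖(fun z => z ^ d + q z)^[k + i] y - (fun z => z ^ d + p z)^[k + i] x‖ ≤
      (E0 + η) * LL d ^ i := by
    intro i
    induction i with
    | zero =>
      intro _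
      have := hA k le_rfl
      rw [add_zero, pow_zero, mul_one]
      linarith
    | succ i ih =>
      intro hi
      have h1 := ih (by omega)
      set u := (fun z => z ^ d + q z)^[k + i] y with hu
      set v := (fun z => z ^ d + p z)^[k + i] x with hv
      have e1 : (fun z => z ^ d + q z)^[k + (i + 1)] y = u ^ d + q u := by
        rw [← add_assoc, Function.iterate_succ_apply']
      have e2 : (fun z => z ^ d + p z)^[k + (i + 1)] x = v ^ d + p v := by
        rw [← add_assoc, Function.iterate_succ_apply']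
      rw [e1, e2]
      have hEη : 0 ≤ E0 + η := by linarith
      have hpow : LL d ^ i ≤ LL d ^ m := pow_le_pow_right₀ hLL (by omega)
      have h2 : ‖u - v‖ ≤ 1 / 2 :=
        h1.trans ((mul_le_mul_of_nonneg_left hpow hEη).trans hE)
      have hv3 : ‖v‖ ≤ 5 / 2 := horb (k + i)
      have hu3 : ‖u‖ ≤ 3 := by
        have : u = (u - v) + v := by ring
        rw [this]
        refine (norm_add_le _ _).trans ?_
        linarith
      have h3 := pow_lip d hu3 (by linarith : ‖v‖ ≤ 3)
      have hu8 : u ∈ ball (0 : ℂ) 8 := by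
        rw [mem_ball_zero_iff]
        linarith
      have hv8 : v ∈ ball (0 : ℂ) 8 := by
        rw [mem_ball_zero_iff]
        linarith
      have h4 : ‖p u - p v‖ ≤ s / 2 * ‖u - v‖ :=
        (convex_ball (0 : ℂ) 8).norm_image_sub_le_of_norm_deriv_le (fun w _ => hp w) hp2 hv8 hu8
      have h5 := hq1 u hu8
      have e3 : u ^ d + q u - (v ^ d + p v) = (u ^ d - v ^ d) + (p u - p v) + (q u - p u) := by
        ring
      rw [e3]
      refine (norm_add₃_le).trans ?_
      have hpow1 : 1 ≤ LL d ^ i := one_le_pow₀ hLL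
      have h6 : (d * 3 ^ (d - 1) + s / 2) * ‖u - v‖ ≤ (LL d - 1 / 2) * ‖u - v‖ := by
        refine mul_le_mul_of_nonneg_right ?_ (norm_nonneg _)
        unfold LL
        linarith
      have h7 : (LL d - 1 / 2) * ‖u - v‖ ≤ (LL d - 1 / 2) * ((E0 + η) * LL d ^ i) :=
        mul_le_mul_of_nonneg_left h1 (by linarith)
      have h8 : η ≤ 1 / 2 * ((E0 + η) * LL d ^ i) := by
        have := mul_le_mul_of_nonneg_left hpow1 hEη
        linarith
      have h9 : (E0 + η) * LL d ^ (i + 1) = (LL d - 1 / 2) * ((E0 + η) * LL d ^ i) +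
          1 / 2 * ((E0 + η) * LL d ^ i) := by
        rw [pow_succ]
        ring
      rw [h9]
      linarith
  intro j hj
  have hEη : 0 ≤ E0 + η := by linarith
  rcases le_total j k with h | h
  · refine (hA j h).trans ?_
    have h1 : 1 ≤ LL d ^ m := one_le_pow₀ hLL
    have := mul_le_mul_of_nonneg_left h1 hEη
    linarith
  · obtain ⟨i, rfl⟩ := Nat.exists_eq_add_of_le h
    refine (hB i (by omega)).trans ?_
    exact mul_le_mul_of_nonneg_left (pow_le_pow_right₀ hLL (by omega)) hEη

end Pool.Agent.Y641.EX
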